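import Mathlib

/-!
# MP_9f93d5_co: lazy cops on three-dimensional rook graphs

The question asks whether every connected graph `G` on `n` vertices with maximum degree
`Δ(G) ≥ n - k²` has lazy cop number at most `k`.  We disprove this for every `k ≥ 600`, already
in the case `n ≤ k²`, in which the degree condition is void.

The graph is the three-dimensional rook graph `K_m □ K_m □ K_m` (`m³` vertices): its lazy cop
number is larger than `k` whenever `8 k + 4 < (m + 2)²`, so it is of order at least `m² / 8`, much
more than the square root `m^{3/2}` of the number of vertices.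

Strategy of the robber: keep a position which is not dominated and for which each of the three
axis-parallel planes through it contains at most `L ≈ m / 4` cops.  A move of one cop in
direction `l` can only enter the plane orthogonal to direction `l`, and then the line of the
robber in direction `l` contains no cop; the robber moves along that line, to a position not
dominated whose new plane has at most `L` cops.
-/

namespace Pool.Agent.Results.MP_9f93d5_co.LazyCops

variable {V : Type}

/-- A turn of the cops: at most one of the `m` cops moves, and it moves to an adjacent vertex. -/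
def LazyMove (G : SimpleGraph V) {m : ℕ} (c c' : Fin m → V) : Prop :=
  c' = c ∨ ∃ (i : Fin m) (v : V), G.Adj (c i) v ∧ c' = Function.update c i v

/-- The history seen by the cops before turn `t + 1`: the list of the first `t` positions
`r 0, ..., r (t - 1)` of the robber. -/
def hist (r : ℕ → V) (t : ℕ) : List V := (List.range t).map r

/-- `m` cops have a strategy `s` that wins the lazy game against every play of the robber.
`s []` is the initial placement and `s [r 0, ..., r t]` is the placement after turn `t + 1` of the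
cops, made with full knowledge of the positions `r 0, ..., r t` of the robber.  The robber moves
along edges or stays.  He is caught if at some moment a cop is at his vertex: either after his own
turn (`s (hist r t) i = r t`) or after a turn of the cops (`s (hist r (t + 1)) i = r t`). -/
def CopsWin (G : SimpleGraph V) (m : ℕ) : Prop :=
  ∃ s : List V → Fin m → V,
    (∀ (h : List V) (v : V), LazyMove G (s h) (s (h ++ [v]))) ∧
    ∀ r : ℕ → V, (∀ t, r (t + 1) = r t ∨ G.Adj (r t) (r (t + 1))) →
      ∃ (t : ℕ) (i : Fin m), s (hist r t) i = r t ∨ s (hist r (t + 1)) i = r t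

/-- The lazy cop number: the least number of cops with a winning strategy. -/
noncomputable def lazyCopNumber (G : SimpleGraph V) : ℕ := sInf {m : ℕ | CopsWin G m}

/-- The three-dimensional rook graph `K_m □ K_m □ K_m`: two triples are adjacent when they differ
in exactly one coordinate. -/
def rook (m : ℕ) : SimpleGraph (Fin 3 → Fin m) where
  Adj u v := ∃ i, u i ≠ v i ∧ ∀ j, j ≠ i → u j = v j
  symm := ⟨fun _ _ ⟨i, h1, h2⟩ => ⟨i, h1.symm, fun j hj => (h2 j hj).symm⟩⟩
  loopless := ⟨fun _ ⟨_, h1, _⟩ => h1 rfl⟩

/-- `u` and `r` differ in at least two coordinates. -/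
def Far {m : ℕ} (u r : Fin 3 → Fin m) : Prop := ∀ l, ∃ j, j ≠ l ∧ u j ≠ r j

/-- The invariant of the robber. -/
def Inv {m k : ℕ} (L : ℕ) (c : Fin k → Fin 3 → Fin m) (r : Fin 3 → Fin m) : Prop :=
  (∀ i, Far (c i) r) ∧ ∀ l, (Finset.univ.filter fun i => c i l = r l).card ≤ L

/-- Counting lemma. -/
theorem exists_value {m k L : ℕ} (hk : k < (L + 1) * (m - 2 * L)) (f : Fin k → Fin m)
    (S : Finset (Fin k)) (hS : S.card ≤ 2 * L) :
    ∃ a : Fin m, (∀ i ∈ S, f i ≠ a) ∧ (Finset.univ.filter fun i => f i = a).card ≤ L := by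
  classical
  by_contra hcon
  push Not at hcon
  set T : Finset (Fin m) := Finset.univ \ S.image f with hT
  have hTc : m - 2 * L ≤ T.card := by
    have h1 : (Finset.univ : Finset (Fin m)).card - (S.image f).card ≤ T.card :=
      Finset.le_card_sdiff _ _
    have h2 : (S.image f).card ≤ S.card := Finset.card_image_le
    simp only [Finset.card_univ, Fintype.card_fin] at h1
    omega
  have hbig : ∀ a ∈ T, L + 1 ≤ (Finset.univ.filter fun i => f i = a).card := by
    intro a ha
    have := hcon a (by
      intro i hi hia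
      rw [hT, Finset.mem_sdiff] at ha
      exact ha.2 (Finset.mem_image.2 ⟨i, hi, hia⟩))
    omega
  have hsum : (∑ a ∈ T, (Finset.univ.filter fun i => f i = a).card) ≤ k := by
    have h1 : (∑ a ∈ T, (Finset.univ.filter fun i => f i = a).card)
        ≤ ∑ a : Fin m, (Finset.univ.filter fun i => f i = a).card :=
      Finset.sum_le_sum_of_subset (Finset.subset_univ _)
    have h2 : (Finset.univ : Finset (Fin k)).card =
        ∑ a : Fin m, (Finset.univ.filter fun i => f i = a).card :=
      Finset.card_eq_sum_card_fiberwise (fun _ _ => Finset.mem_univ _)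
    simp only [Finset.card_univ, Fintype.card_fin] at h2
    omega
  have h3 : T.card * (L + 1) ≤ ∑ a ∈ T, (Finset.univ.filter fun i => f i = a).card := by
    have := Finset.card_nsmul_le_sum T (fun a => (Finset.univ.filter fun i => f i = a).card)
      (L + 1) hbig
    simpa [smul_eq_mul] using this
  have h4 : (L + 1) * (m - 2 * L) ≤ T.card * (L + 1) := by
    rw [mul_comm T.card]
    exact Nat.mul_le_mul_left _ hTc
  omega

/-- The robber finds a starting vertex. -/
theorem start {m k L : ℕ} (hk : k < (L + 1) * (m - 2 * L)) (c : Fin k → Fin 3 → Fin m) :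
    ∃ r, Inv L c r := by
  classical
  obtain ⟨x, -, hx⟩ := exists_value hk (fun i => c i 0) ∅ (by simp)
  obtain ⟨y, hy1, hy⟩ := exists_value hk (fun i => c i 1)
    (Finset.univ.filter fun i => c i 0 = x) (by omega)
  obtain ⟨z, hz1, hz⟩ := exists_value hk (fun i => c i 2)
    ((Finset.univ.filter fun i => c i 0 = x) ∪ (Finset.univ.filter fun i => c i 1 = y))
    (le_trans (Finset.card_union_le _ _) (by omega))
  refine ⟨![x, y, z], ?_, ?_⟩
  · intro i
    have hxy : c i 0 = x → c i 1 ≠ y := fun h => hy1 i (by simpa using h)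
    have hz2 : (c i 0 = x ∨ c i 1 = y) → c i 2 ≠ z := fun h => hz1 i (by simpa using h)
    have key : (c i 0 ≠ x ∧ c i 1 ≠ y) ∨ (c i 0 ≠ x ∧ c i 2 ≠ z) ∨ (c i 1 ≠ y ∧ c i 2 ≠ z) := by
      by_cases h0 : c i 0 = x
      · exact Or.inr (Or.inr ⟨hxy h0, hz2 (Or.inl h0)⟩)
      · by_cases h1 : c i 1 = y
        · exact Or.inr (Or.inl ⟨h0, hz2 (Or.inr h1)⟩)
        · exact Or.inl ⟨h0, h1⟩
    intro l
    rcases key with ⟨h0, h1⟩ | ⟨h0, h1⟩ | ⟨h0, h1⟩
    · by_cases hl : l = 0
      · subst hl; exact ⟨1, by decide, by simpa using h1⟩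
      · exact ⟨0, fun h => hl h.symm, by simpa using h0⟩
    · by_cases hl : l = 0
      · subst hl; exact ⟨2, by decide, by simpa using h1⟩
      · exact ⟨0, fun h => hl h.symm, by simpa using h0⟩
    · by_cases hl : l = 1
      · subst hl; exact ⟨2, by decide, by simpa using h1⟩
      · exact ⟨1, fun h => hl h.symm, by simpa using h0⟩
  · intro l
    fin_cases l
    · exact hx
    · exact hy
    · exact hz

/-- The robber answers every turn of the cops. -/
theorem step {m k L : ℕ} (hk : k < (L + 1) * (m - 2 * L)) (c c' : Fin k → Fin 3 → Fin m)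
    (r : Fin 3 → Fin m) (hI : Inv L c r) (hc : LazyMove (rook m) c c') :
    (∀ i, c' i ≠ r) ∧ ∃ r', (r' = r ∨ (rook m).Adj r r') ∧ Inv L c' r' := by
  classical
  obtain ⟨hfar, hload⟩ := hI
  rcases hc with rfl | ⟨i, v, ⟨l, hl1, hl2⟩, rfl⟩
  · refine ⟨fun i h => ?_, r, Or.inl rfl, hfar, hload⟩
    obtain ⟨j, -, hj⟩ := hfar i 0
    exact hj (by rw [h])
  · -- every cop, after the move, differs from the robber in a coordinate other than `l`
    have hA : ∀ i', ∃ j, j ≠ l ∧ (Function.update c i v) i' j ≠ r j := by
      intro i'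
      by_cases hi : i' = i
      · subst hi
        obtain ⟨j, hj1, hj2⟩ := hfar i' l
        refine ⟨j, hj1, ?_⟩
        rw [Function.update_self, ← hl2 j hj1]
        exact hj2
      · obtain ⟨j, hj1, hj2⟩ := hfar i' l
        refine ⟨j, hj1, ?_⟩
        rw [Function.update_of_ne hi]
        exact hj2
    -- coordinates other than `l` have not changed
    have hB : ∀ i' j, j ≠ l → (Function.update c i v) i' j = c i' j := by
      intro i' j hj
      by_cases hi : i' = i
      · subst hi
        rw [Function.update_self, hl2 j hj]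
      · rw [Function.update_of_ne hi]
    refine ⟨?_, ?_⟩
    · intro i' h
      obtain ⟨j, -, hj⟩ := hA i'
      exact hj (by rw [h])
    · obtain ⟨a, ha1, ha2⟩ := exists_value hk (fun i' => (Function.update c i v) i' l)
        ((Finset.univ.filter fun i' => c i' (l + 1) = r (l + 1)) ∪
          (Finset.univ.filter fun i' => c i' (l + 2) = r (l + 2)))
        (le_trans (Finset.card_union_le _ _) (by
          have h1 := hload (l + 1)
          have h2 := hload (l + 2)
          omega))
      have hcase0 : ∀ l j : Fin 3, j ≠ l → j = l + 1 ∨ j = l + 2 := by decide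
      have hcase := hcase0 l
      refine ⟨Function.update r l a, ?_, ?_, ?_⟩
      · by_cases hal : a = r l
        · left
          rw [hal, Function.update_eq_self]
        · right
          refine ⟨l, ?_, ?_⟩
          · rw [Function.update_self]
            exact fun h => hal h.symm
          · intro j hj
            rw [Function.update_of_ne hj]
      · intro i' l'
        by_cases hl' : l' = l
        · subst hl'
          obtain ⟨j, hj1, hj2⟩ := hA i'
          exact ⟨j, hj1, by rw [Function.update_of_ne hj1]; exact hj2⟩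
        · by_cases hua : (Function.update c i v) i' l = a
          · -- both other coordinates differ
            have hnot : i' ∉ ((Finset.univ.filter fun i' => c i' (l + 1) = r (l + 1)) ∪
                (Finset.univ.filter fun i' => c i' (l + 2) = r (l + 2))) :=
              fun h => ha1 i' h hua
            simp only [Finset.mem_union, Finset.mem_filter, Finset.mem_univ, true_and,
              not_or] at hnot
            have hthird : ∀ l l' : Fin 3, ∃ j, j ≠ l ∧ j ≠ l' := by decide
            obtain ⟨j, hj1, hj2⟩ := hthird l l'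
            refine ⟨j, hj2, ?_⟩
            rw [Function.update_of_ne hj1, hB i' j hj1]
            rcases hcase j hj1 with rfl | rfl
            · exact hnot.1
            · exact hnot.2
          · refine ⟨l, fun h => hl' h.symm, ?_⟩
            rw [Function.update_self]
            exact hua
      · intro l'
        by_cases hl' : l' = l
        · subst hl'
          rw [Function.update_self]
          exact ha2
        · have : (Finset.univ.filter fun i' => (Function.update c i v) i' l' =
              Function.update r l a l') = Finset.univ.filter fun i' => c i' l' = r l' := by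
            apply Finset.filter_congr
            intro i' _
            rw [hB i' l' hl', Function.update_of_ne hl']
          rw [this]
          exact hload l'

/-- The state of the play: the history and the current position of the robber, with the
invariant. -/
theorem not_copsWin {m k L : ℕ} (hk : k < (L + 1) * (m - 2 * L)) : ¬ CopsWin (rook m) k := by
  classical
  rintro ⟨s, hs, hwin⟩
  choose st hst using fun c => start (k := k) (m := m) (L := L) hk c
  have hstep := fun c c' r (h1 : Inv L c r) (h2 : LazyMove (rook m) c c') =>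
    (step hk c c' r h1 h2).2
  choose nx hnx1 hnx2 using hstep
  -- sequence of states
  let P : Type := {p : List (Fin 3 → Fin m) × (Fin 3 → Fin m) // Inv L (s p.1) p.2}
  let p0 : P := ⟨([], st (s [])), hst _⟩
  let next : P → P := fun p =>
    ⟨(p.1.1 ++ [p.1.2], nx (s p.1.1) (s (p.1.1 ++ [p.1.2])) p.1.2 p.2 (hs _ _)), hnx2 _ _ _ _ _⟩
  let q : ℕ → P := fun t => Nat.rec p0 (fun _ p => next p) t
  let r : ℕ → (Fin 3 → Fin m) := fun t => (q t).1.2
  have hq : ∀ t, q (t + 1) = next (q t) := fun t => rfl
  have hh : ∀ t, (q t).1.1 = hist r t := by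
    intro t
    induction t with
    | zero => rfl
    | succ t ih =>
      have h1 : (q (t + 1)).1.1 = (q t).1.1 ++ [(q t).1.2] := rfl
      rw [h1, ih]
      unfold hist
      rw [List.range_succ, List.map_append]
      rfl
  have hr : ∀ t, r (t + 1) = r t ∨ (rook m).Adj (r t) (r (t + 1)) := by
    intro t
    exact hnx1 (s (q t).1.1) (s ((q t).1.1 ++ [(q t).1.2])) (q t).1.2 (q t).2 (hs _ _)
  obtain ⟨t, i, h⟩ := hwin r hr
  have hinv : Inv L (s (hist r t)) (r t) := by
    rw [← hh t]
    exact (q t).2
  rcases h with h | h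
  · obtain ⟨j, -, hj⟩ := hinv.1 i 0
    exact hj (by rw [h])
  · have hl : LazyMove (rook m) (s (hist r t)) (s (hist r (t + 1))) := by
      have : hist r (t + 1) = hist r t ++ [r t] := by
        unfold hist
        rw [List.range_succ, List.map_append]
        rfl
      rw [this]
      exact hs _ _
    exact (step hk _ _ _ hinv hl).1 i h

/-- With one cop on each vertex the cops win. -/
theorem copsWin_card {V : Type} [Fintype V] (G : SimpleGraph V) :
    CopsWin G (Fintype.card V) := by
  classical
  refine ⟨fun _ i => (Fintype.equivFin V).symm i, fun _ _ => Or.inl rfl, fun r _ => ?_⟩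
  exact ⟨0, Fintype.equivFin V (r 0), Or.inl (by simp)⟩

/-- Optimal choice of the bound `L`. -/
theorem exists_L {m k : ℕ} (hk : 8 * k + 4 < (m + 2) ^ 2) :
    ∃ L, k < (L + 1) * (m - 2 * L) := by
  obtain ⟨q, e, he, hqe⟩ : ∃ q e : ℕ, e ≤ 3 ∧ m + 2 = 4 * q + e :=
    ⟨(m + 2) / 4, (m + 2) % 4, by omega, by omega⟩
  rw [hqe] at hk
  have he' : e = 3 ∨ e ≤ 2 := by omega
  rcases he' with rfl | he'
  · refine ⟨q, ?_⟩
    have : m - 2 * q = 2 * q + 1 := by omega
    rw [this]
    nlinarith
  · rcases Nat.eq_zero_or_pos q with h | h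
    · subst h
      exfalso
      have : (4 * 0 + e) ^ 2 ≤ 4 := by interval_cases e <;> norm_num
      omega
    · obtain ⟨L, rfl⟩ : ∃ L, q = L + 1 := ⟨q - 1, by omega⟩
      refine ⟨L, ?_⟩
      have : m - 2 * L = 2 * L + 2 + e := by omega
      rw [this]
      interval_cases e <;> nlinarith

/-- The lazy cop number of `K_m □ K_m □ K_m` is larger than `k` as soon as `8 k + 4 < (m + 2)²`. -/
theorem lt_lazyCopNumber {m k : ℕ} (hk : 8 * k + 4 < (m + 2) ^ 2) :
    k < lazyCopNumber (rook m) := by
  classical
  by_contra hcon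
  push Not at hcon
  have hne : {j : ℕ | CopsWin (rook m) j}.Nonempty := ⟨_, copsWin_card (rook m)⟩
  have hmem : CopsWin (rook m) (lazyCopNumber (rook m)) := Nat.sInf_mem hne
  obtain ⟨L, hL⟩ := exists_L hk
  exact not_copsWin (lt_of_le_of_lt hcon hL) hmem

theorem rook_connected {m : ℕ} (hm : 0 < m) : (rook m).Connected := by
  classical
  have : Nonempty (Fin m) := ⟨⟨0, hm⟩⟩
  have : Nonempty (Fin 3 → Fin m) := inferInstance
  refine ⟨fun u v => ?_⟩
  -- change the coordinates one at a time
  have one : ∀ (w : Fin 3 → Fin m) (i : Fin 3) (a : Fin m),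
      (rook m).Reachable w (Function.update w i a) := by
    intro w i a
    by_cases h : a = w i
    · rw [h, Function.update_eq_self]
    · refine SimpleGraph.Adj.reachable ⟨i, ?_, ?_⟩
      · rw [Function.update_self]
        exact fun h' => h h'.symm
      · intro j hj
        rw [Function.update_of_ne hj]
  have h1 := one u 0 (v 0)
  have h2 := one (Function.update u 0 (v 0)) 1 (v 1)
  have h3 := one (Function.update (Function.update u 0 (v 0)) 1 (v 1)) 2 (v 2)
  have heq : Function.update (Function.update (Function.update u 0 (v 0)) 1 (v 1)) 2 (v 2) = v := by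
    funext j
    fin_cases j <;> rfl
  rw [heq] at h3
  exact h1.trans (h2.trans h3)

/-- For every `k ≥ 600` some cube `m³ ≤ k²` has `(m + 2)² > 8 k + 4`. -/
theorem exists_m {k : ℕ} (hk : 600 ≤ k) :
    ∃ m : ℕ, 0 < m ∧ m ^ 3 ≤ k ^ 2 ∧ 8 * k + 4 < (m + 2) ^ 2 := by
  classical
  -- the largest `m` with `m³ ≤ k²`
  have hex : ∃ m : ℕ, k ^ 2 < (m + 1) ^ 3 := by
    refine ⟨k ^ 2, ?_⟩
    calc k ^ 2 < k ^ 2 + 1 := Nat.lt_succ_self _
      _ ≤ (k ^ 2 + 1) ^ 3 := Nat.le_self_pow (by norm_num) _
  obtain ⟨hm1, hm2⟩ : k ^ 2 < (Nat.find hex + 1) ^ 3 ∧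
      ∀ j < Nat.find hex, ¬ k ^ 2 < (j + 1) ^ 3 :=
    ⟨Nat.find_spec hex, fun j hj => Nat.find_min hex hj⟩
  set m := Nat.find hex with hm
  have hmpos : 0 < m := by
    rcases Nat.eq_zero_or_pos m with h | h
    · rw [h] at hm1
      nlinarith
    · exact h
  have hle : m ^ 3 ≤ k ^ 2 := by
    have := hm2 (m - 1) (by omega)
    rw [Nat.sub_add_cancel hmpos] at this
    omega
  refine ⟨m, hmpos, hle, ?_⟩
  by_contra hcon
  push Not at hcon
  -- `(m + 1)² ≤ 8 k + 4`, hence `k⁴ < (m + 1)⁶ ≤ (8 k + 4)³ < k⁴`
  have h1 : (m + 1) ^ 2 ≤ 8 * k + 4 := le_trans (Nat.pow_le_pow_left (by omega) 2) hcon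
  have h2 : k ^ 4 < (8 * k + 4) ^ 3 := by
    calc k ^ 4 = (k ^ 2) ^ 2 := by ring
      _ < ((m + 1) ^ 3) ^ 2 := Nat.pow_lt_pow_left hm1 (by norm_num)
      _ = ((m + 1) ^ 2) ^ 3 := by ring
      _ ≤ (8 * k + 4) ^ 3 := Nat.pow_le_pow_left h1 3
  have h3 : (8 * k + 4) ^ 3 ≤ (9 * k) ^ 3 := Nat.pow_le_pow_left (by omega) 3
  have h4 : (8 * k + 4) ^ 3 ≤ k ^ 4 := by
    have e1 : (8 * k + 4) ^ 3 = 512 * k ^ 3 + 768 * k ^ 2 + 384 * k + 64 := by ring
    have e2 : k ^ 4 = k * k ^ 3 := by ring
    have e3 : k ^ 3 = k * k ^ 2 := by ring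
    have e4 : k ^ 2 = k * k := by ring
    have f1 : 600 * k ^ 3 ≤ k ^ 4 := by rw [e2]; exact Nat.mul_le_mul_right _ hk
    have f2 : 600 * k ^ 2 ≤ k ^ 3 := by rw [e3]; exact Nat.mul_le_mul_right _ hk
    have f3 : 600 * k ≤ k ^ 2 := by rw [e4]; exact Nat.mul_le_mul_right _ hk
    omega
  omega

/-- **Main theorem (the answer to Q1 is negative).**

1. For every `k ≥ 600` there is a finite connected graph `G` on `n ≤ k²` vertices (so that
`Δ(G) ≥ n - k²` holds trivially) whose lazy cop number is at least `k + 1`.
2. More precisely, the lazy cop number of the three-dimensional rook graph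
`K_m □ K_m □ K_m` is at least `k + 1` whenever `8 k + 4 < (m + 2)²`. -/
theorem result :
    (∀ k : ℕ, 600 ≤ k → ∃ (V : Type) (_ : Fintype V) (G : SimpleGraph V) (_ : DecidableRel G.Adj),
      G.Connected ∧ Fintype.card V ≤ k ^ 2 ∧ Fintype.card V ≤ G.maxDegree + k ^ 2 ∧
        k + 1 ≤ lazyCopNumber G) ∧
    (∀ m k : ℕ, 8 * k + 4 < (m + 2) ^ 2 → k + 1 ≤ lazyCopNumber (rook m)) := by
  classical
  refine ⟨fun k hk => ?_, fun m k h => lt_lazyCopNumber h⟩
  obtain ⟨m, hm, h1, h2⟩ := exists_m hk
  have hcard : Fintype.card (Fin 3 → Fin m) ≤ k ^ 2 := by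
    simpa using h1
  exact ⟨Fin 3 → Fin m, inferInstance, rook m, Classical.decRel _, rook_connected hm, hcard,
    le_trans hcard (Nat.le_add_left _ _), lt_lazyCopNumber h2⟩

end Pool.Agent.Results.MP_9f93d5_co.LazyCops
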